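import Mathlib

/-!
# A Poisson homeomorphism that does not lift to the symplectic groupoid

On `ℝⁿ`, `n ≥ 1`, with the zero bracket, the homeomorphism `(x₁, …, xₙ) ↦ (x₁³, x₂, …, xₙ)` is a
`C⁰` limit of diffeomorphisms, hence a Poisson homeomorphism. No symplectic homeomorphism of the
canonical integration `T*ℝⁿ` lies over it.
-/

open Set MeasureTheory Filter Topology
open scoped ContDiff

noncomputable section

namespace Pool.Agent.Results.MP_bef951_gt.NoLift

/-! ## General definitions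

`E` is the Poisson manifold and `F` the total space of the symplectic groupoid. Both are real
normed vector spaces here (below `E = ℝⁿ` and `F = T*ℝⁿ`). -/

section Definitions

variable {E F : Type*} [NormedAddCommGroup E] [NormedSpace ℝ E]
  [NormedAddCommGroup F] [NormedSpace ℝ F]

/-- `br` is a Poisson bracket on `C^∞(E)` (the values of `br` on functions that are not smooth are
irrelevant). -/
structure IsPoissonBracket (br : (E → ℝ) → (E → ℝ) → E → ℝ) : Prop where
  smooth : ∀ f g, ContDiff ℝ ∞ f → ContDiff ℝ ∞ g → ContDiff ℝ ∞ (br f g)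
  skew : ∀ f g, ContDiff ℝ ∞ f → ContDiff ℝ ∞ g → br g f = -br f g
  add : ∀ f g h, ContDiff ℝ ∞ f → ContDiff ℝ ∞ g → ContDiff ℝ ∞ h →
    br (f + g) h = br f h + br g h
  smul : ∀ (c : ℝ) f g, ContDiff ℝ ∞ f → ContDiff ℝ ∞ g → br (c • f) g = c • br f g
  leibniz : ∀ f g h, ContDiff ℝ ∞ f → ContDiff ℝ ∞ g → ContDiff ℝ ∞ h →
    br (f * g) h = f * br g h + g * br f h
  jacobi : ∀ f g h, ContDiff ℝ ∞ f → ContDiff ℝ ∞ g → ContDiff ℝ ∞ h →
    br f (br g h) + br g (br h f) + br h (br f g) = 0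

/-- `ψ` is a Poisson diffeomorphism of `(E, br)`. -/
structure IsPoissonDiffeo (br : (E → ℝ) → (E → ℝ) → E → ℝ) (ψ : E ≃ E) : Prop where
  smooth : ContDiff ℝ ∞ ψ
  smooth_symm : ContDiff ℝ ∞ ψ.symm
  map_br : ∀ f g, ContDiff ℝ ∞ f → ContDiff ℝ ∞ g → br (f ∘ ψ) (g ∘ ψ) = br f g ∘ ψ

/-- `C⁰` convergence of maps: uniform convergence on compact subsets. -/
def C0Tendsto (ψ : ℕ → E → E) (φ : E → E) : Prop :=
  ∀ K : Set E, IsCompact K → TendstoUniformlyOn ψ φ atTop K

/-- Poisson homeomorphisms: `C⁰` limits of Poisson diffeomorphisms that are homeomorphisms. -/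
def IsPoissonHomeo (br : (E → ℝ) → (E → ℝ) → E → ℝ) (φ : E ≃ₜ E) : Prop :=
  ∃ ψ : ℕ → E ≃ E, (∀ k, IsPoissonDiffeo br (ψ k)) ∧ C0Tendsto (fun k => ψ k) φ

/-- `Ω` is a smooth differential 2-form on `F`: `Ω x` is an alternating bilinear form for every
`x`, and `Ω` is smooth. -/
structure IsTwoForm (Ω : F → F → F → ℝ) : Prop where
  add_left : ∀ x v v' w, Ω x (v + v') w = Ω x v w + Ω x v' w
  smul_left : ∀ x (c : ℝ) v w, Ω x (c • v) w = c * Ω x v w
  add_right : ∀ x v w w', Ω x v (w + w') = Ω x v w + Ω x v w'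
  smul_right : ∀ x (c : ℝ) v w, Ω x v (c • w) = c * Ω x v w
  alt : ∀ x v, Ω x v v = 0
  smooth : ContDiff ℝ ∞ (fun p : F × F × F => Ω p.1 p.2.1 p.2.2)

/-- The 2-form `Ω` is closed: `dΩ(u, v, w) = ∂_u Ω(v, w) + ∂_v Ω(w, u) + ∂_w Ω(u, v) = 0` for
constant vector fields `u, v, w`. -/
def IsClosedForm (Ω : F → F → F → ℝ) : Prop :=
  ∀ x u v w, fderiv ℝ (fun y => Ω y v w) x u + fderiv ℝ (fun y => Ω y w u) x v +
    fderiv ℝ (fun y => Ω y u v) x w = 0

/-- `Ω` is a symplectic form on `F`. -/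
structure IsSymplecticForm (Ω : F → F → F → ℝ) : Prop where
  form : IsTwoForm Ω
  nondegenerate : ∀ x v, (∀ w, Ω x v w = 0) → v = 0
  closed : IsClosedForm Ω

/-- `ψ` is a symplectic diffeomorphism of `(F, Ω)`. -/
structure IsSymplecticDiffeo (Ω : F → F → F → ℝ) (ψ : F ≃ F) : Prop where
  smooth : ContDiff ℝ ∞ ψ
  smooth_symm : ContDiff ℝ ∞ ψ.symm
  pullback : ∀ x v w, Ω (ψ x) (fderiv ℝ ψ x v) (fderiv ℝ ψ x w) = Ω x v w

/-- Symplectic homeomorphisms: `C⁰` limits of symplectic diffeomorphisms that are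
homeomorphisms. -/
def IsSymplecticHomeo (Ω : F → F → F → ℝ) (Φ : F ≃ₜ F) : Prop :=
  ∃ ψ : ℕ → F ≃ F, (∀ k, IsSymplecticDiffeo Ω (ψ k)) ∧ C0Tendsto (fun k => ψ k) Φ

/-- `X` is the Hamiltonian vector field of `f` on `(F, Ω)`: `Ω(X, ·) = df`. -/
def IsHamiltonianField (Ω : F → F → F → ℝ) (f : F → ℝ) (X : F → F) : Prop :=
  ∀ z w, Ω z (X z) w = fderiv ℝ f z w

/-- `t : (F, Ω) → (E, br)` is a Poisson map, where the Poisson bracket of `(F, Ω)` is
`{f, g} = Ω(X_f, X_g)`. -/
def IsPoissonMap (Ω : F → F → F → ℝ) (br : (E → ℝ) → (E → ℝ) → E → ℝ) (t : F → E) : Prop :=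
  ∀ f g, ContDiff ℝ ∞ f → ContDiff ℝ ∞ g → ∀ X Y, IsHamiltonianField Ω (f ∘ t) X →
    IsHamiltonianField Ω (g ∘ t) Y → ∀ z, Ω z (X z) (Y z) = br f g (t z)

/-- The set `F` of arrows, with source `s`, target `t`, unit `u`, inversion `i` and
multiplication `m`, is a groupoid over `E` (only the values `m g h` with `s g = t h` matter). -/
structure IsGroupoid (s t : F → E) (u : E → F) (i : F → F) (m : F → F → F) : Prop where
  s_unit : ∀ x, s (u x) = x
  t_unit : ∀ x, t (u x) = x
  s_mul : ∀ g h, s g = t h → s (m g h) = s h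
  t_mul : ∀ g h, s g = t h → t (m g h) = t g
  assoc : ∀ g h k, s g = t h → s h = t k → m (m g h) k = m g (m h k)
  unit_mul : ∀ g, m (u (t g)) g = g
  mul_unit : ∀ g, m g (u (s g)) = g
  s_inv : ∀ g, s (i g) = t g
  t_inv : ∀ g, t (i g) = s g
  inv_mul : ∀ g, m (i g) g = u (s g)
  mul_inv : ∀ g, m g (i g) = u (t g)

/-- `f` is a smooth surjective submersion. -/
structure IsSubmersion (f : F → E) : Prop where
  smooth : ContDiff ℝ ∞ f
  surjective : Function.Surjective f
  surjective_fderiv : ∀ g, Function.Surjective (fderiv ℝ f g)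

/-- The total multiplication map `F × F → F`. -/
def mulMap (m : F → F → F) (p : F × F) : F := m p.1 p.2

/-- The groupoid with structure maps `s, t, u, i, m` is a Lie groupoid: the structure maps are
smooth (`m` is the restriction of a smooth map on `F × F`) and `s`, `t` are submersions. -/
structure IsLieGroupoid (s t : F → E) (u : E → F) (i : F → F) (m : F → F → F) : Prop where
  groupoid : IsGroupoid s t u i m
  submersion_s : IsSubmersion s
  submersion_t : IsSubmersion t
  smooth_u : ContDiff ℝ ∞ u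
  smooth_i : ContDiff ℝ ∞ i
  smooth_m : ContDiff ℝ ∞ (mulMap m)

/-- The pullback of the 2-form `Ω` by the map `f`, at the point `x`. -/
def pull {G : Type*} [NormedAddCommGroup G] [NormedSpace ℝ G] (Ω : F → F → F → ℝ) (f : G → F)
    (x v w : G) : ℝ :=
  Ω (f x) (fderiv ℝ f x v) (fderiv ℝ f x w)

/-- The tangent vectors to the manifold of composable pairs `{(g, h) | s g = t h}` at `p`. -/
def IsTangent (s t : F → E) (p a : F × F) : Prop :=
  fderiv ℝ s p.1 a.1 = fderiv ℝ t p.2 a.2

/-- The form `Ω` is multiplicative: `m*Ω = pr₁*Ω + pr₂*Ω` on the manifold of composable pairs. -/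
def IsMultiplicative (Ω : F → F → F → ℝ) (s t : F → E) (m : F → F → F) : Prop :=
  ∀ p a b : F × F, s p.1 = t p.2 → IsTangent s t p a → IsTangent s t p b →
    pull Ω (mulMap m) p a b = Ω p.1 a.1 b.1 + Ω p.2 a.2 b.2

/-- `(F, Ω) ⇉ E` is a symplectic groupoid, with source `s`, target `t`, unit `u`, inversion `i`
and multiplication `m`. -/
structure IsSymplecticGroupoid (Ω : F → F → F → ℝ) (s t : F → E) (u : E → F)
    (i : F → F) (m : F → F → F) : Prop where
  symplectic : IsSymplecticForm Ω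
  lie : IsLieGroupoid s t u i m
  multiplicative : IsMultiplicative Ω s t m

/-- `u` is a Lagrangian embedding of `E` into `(F, Ω)`. -/
structure IsLagrangianEmbedding (Ω : F → F → F → ℝ) (u : E → F) : Prop where
  embedding : IsClosedEmbedding u
  immersion : ∀ x, Function.Injective (fderiv ℝ u x)
  isotropic : ∀ x v w, pull Ω u x v w = 0
  dim : Module.finrank ℝ F = 2 * Module.finrank ℝ E

/-- `((F, Ω), s, t, u, i, m)` is the canonical integration of the Poisson manifold `(E, br)`: a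
symplectic groupoid such that `t` is a surjective submersion and a Poisson map, `u` is a
Lagrangian embedding and the source fibres are simply connected. -/
structure IsCanonicalIntegration (br : (E → ℝ) → (E → ℝ) → E → ℝ)
    (Ω : F → F → F → ℝ) (s t : F → E) (u : E → F) (i : F → F) (m : F → F → F) : Prop where
  groupoid : IsSymplecticGroupoid Ω s t u i m
  submersion_t : IsSubmersion t
  poisson_t : IsPoissonMap Ω br t
  lagrangian_u : IsLagrangianEmbedding Ω u
  simplyConnected : ∀ x, SimplyConnectedSpace (s ⁻¹' {x})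

end Definitions

/-! ## The cotangent bundle of `ℝⁿ` -/

variable {n : ℕ}

/-- `T*ℝⁿ = ℝⁿ × ℝⁿ`, with points `(q, p)`. -/
abbrev CT (n : ℕ) : Type := (Fin n → ℝ) × (Fin n → ℝ)

/-- The canonical symplectic form `∑ᵢ dpᵢ ∧ dqᵢ` of `T*ℝⁿ`: at every point `x` it is the bilinear
form `(v, w) ↦ ∑ᵢ (v_{pᵢ} w_{qᵢ} - v_{qᵢ} w_{pᵢ})`. -/
def omega (n : ℕ) (_x v w : CT n) : ℝ := ∑ i, (v.2 i * w.1 i - v.1 i * w.2 i)

lemma omega_apply (x v w : CT n) : omega n x v w = ∑ i, (v.2 i * w.1 i - v.1 i * w.2 i) := rfl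

lemma contDiff_coord1 (i : Fin n) : ContDiff ℝ ∞ (fun v : CT n => v.1 i) :=
  (contDiff_apply ℝ ℝ i).comp contDiff_fst

lemma contDiff_coord2 (i : Fin n) : ContDiff ℝ ∞ (fun v : CT n => v.2 i) :=
  (contDiff_apply ℝ ℝ i).comp contDiff_snd

lemma isTwoForm_omega : IsTwoForm (omega n) where
  add_left x v v' w := by
    simp only [omega_apply, ← Finset.sum_add_distrib]
    refine Finset.sum_congr rfl fun i _ => ?_
    show (v.2 i + v'.2 i) * w.1 i - (v.1 i + v'.1 i) * w.2 i = _
    ring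
  smul_left x c v w := by
    simp only [omega_apply, Finset.mul_sum]
    refine Finset.sum_congr rfl fun i _ => ?_
    show (c * v.2 i) * w.1 i - (c * v.1 i) * w.2 i = _
    ring
  add_right x v w w' := by
    simp only [omega_apply, ← Finset.sum_add_distrib]
    refine Finset.sum_congr rfl fun i _ => ?_
    show v.2 i * (w.1 i + w'.1 i) - v.1 i * (w.2 i + w'.2 i) = _
    ring
  smul_right x c v w := by
    simp only [omega_apply, Finset.mul_sum]
    refine Finset.sum_congr rfl fun i _ => ?_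
    show v.2 i * (c * w.1 i) - v.1 i * (c * w.2 i) = _
    ring
  alt x v := by
    rw [omega_apply]
    exact Finset.sum_eq_zero fun i _ => by ring
  smooth := by
    refine ContDiff.sum fun i _ => ?_
    have h1 : ContDiff ℝ ∞ (fun p : CT n × CT n × CT n => p.2.1) := contDiff_fst.comp contDiff_snd
    have h2 : ContDiff ℝ ∞ (fun p : CT n × CT n × CT n => p.2.2) := contDiff_snd.comp contDiff_snd
    exact (((contDiff_coord2 i).comp h1).mul ((contDiff_coord1 i).comp h2)).sub
      (((contDiff_coord1 i).comp h1).mul ((contDiff_coord2 i).comp h2))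

lemma isSymplecticForm_omega : IsSymplecticForm (omega n) where
  form := isTwoForm_omega
  nondegenerate x v h := by
    have h1 : v.1 = 0 := by
      ext j
      have := h (0, Pi.single j 1)
      rw [omega_apply] at this
      simpa [Pi.single_apply] using this
    have h2 : v.2 = 0 := by
      ext j
      have := h (Pi.single j 1, 0)
      rw [omega_apply] at this
      simpa [Pi.single_apply] using this
    exact Prod.ext h1 h2
  closed x u v w := by
    have : ∀ a b : CT n, fderiv ℝ (fun y => omega n y a b) x = 0 := by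
      intro a b
      have : (fun y => omega n y a b) = fun _ => ∑ i, (a.2 i * b.1 i - a.1 i * b.2 i) := rfl
      rw [this]
      simp
    simp [this]

/-- The multiplication of the groupoid `T*ℝⁿ ⇉ ℝⁿ`: addition of covectors. -/
def mulCT (g h : CT n) : CT n := (g.1, g.2 + h.2)

/-- The inversion of the groupoid `T*ℝⁿ ⇉ ℝⁿ`. -/
def invCT (g : CT n) : CT n := (g.1, -g.2)

/-- The zero section. -/
def unitCT (x : Fin n → ℝ) : CT n := (x, 0)

/-- `mulCT` as a linear map. -/
def mulCTL (n : ℕ) : CT n × CT n →L[ℝ] CT n :=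
  ((ContinuousLinearMap.fst ℝ _ _).comp (ContinuousLinearMap.fst ℝ (CT n) (CT n))).prod
    (((ContinuousLinearMap.snd ℝ _ _).comp (ContinuousLinearMap.fst ℝ (CT n) (CT n))) +
      ((ContinuousLinearMap.snd ℝ _ _).comp (ContinuousLinearMap.snd ℝ (CT n) (CT n))))

lemma hasFDerivAt_mulCT (p : CT n × CT n) : HasFDerivAt (mulMap mulCT) (mulCTL n) p :=
  (mulCTL n).hasFDerivAt

lemma hasFDerivAt_unitCT (x : Fin n → ℝ) :
    HasFDerivAt (unitCT (n := n)) (ContinuousLinearMap.inl ℝ (Fin n → ℝ) (Fin n → ℝ)) x :=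
  (ContinuousLinearMap.inl ℝ (Fin n → ℝ) (Fin n → ℝ)).hasFDerivAt

lemma isGroupoid : IsGroupoid (Prod.fst : CT n → Fin n → ℝ) Prod.fst unitCT invCT mulCT where
  s_unit x := rfl
  t_unit x := rfl
  s_mul g h hgh := hgh
  t_mul g h _ := rfl
  assoc g h k _ _ := by simp [mulCT, add_assoc]
  unit_mul g := by simp [mulCT, unitCT]
  mul_unit g := by simp [mulCT, unitCT]
  s_inv g := rfl
  t_inv g := rfl
  inv_mul g := by simp [mulCT, invCT, unitCT]
  mul_inv g := by simp [mulCT, invCT, unitCT]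

lemma isSubmersion_fst : IsSubmersion (Prod.fst : CT n → Fin n → ℝ) where
  smooth := contDiff_fst
  surjective x := ⟨(x, 0), rfl⟩
  surjective_fderiv g := by
    rw [fderiv_fst]
    exact fun x => ⟨(x, 0), rfl⟩

lemma isLieGroupoid : IsLieGroupoid (Prod.fst : CT n → Fin n → ℝ) Prod.fst unitCT invCT mulCT where
  groupoid := isGroupoid
  submersion_s := isSubmersion_fst
  submersion_t := isSubmersion_fst
  smooth_u := contDiff_id.prodMk contDiff_const
  smooth_i := contDiff_fst.prodMk contDiff_snd.neg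
  smooth_m := (contDiff_fst.comp contDiff_fst).prodMk
    ((contDiff_snd.comp contDiff_fst).add (contDiff_snd.comp contDiff_snd))

lemma isSymplecticGroupoid : IsSymplecticGroupoid (omega n) Prod.fst Prod.fst unitCT invCT mulCT where
  symplectic := isSymplecticForm_omega
  lie := isLieGroupoid
  multiplicative p a b _ h1 h2 := by
    unfold pull
    unfold IsTangent at h1 h2
    rw [(hasFDerivAt_mulCT p).fderiv]
    rw [fderiv_fst, fderiv_fst] at h1 h2
    simp only [ContinuousLinearMap.coe_fst'] at h1 h2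
    simp only [omega_apply, ← Finset.sum_add_distrib]
    refine Finset.sum_congr rfl fun i _ => ?_
    show (a.1.2 i + a.2.2 i) * b.1.1 i - a.1.1 i * (b.1.2 i + b.2.2 i) = _
    rw [← h1, ← h2]
    ring

lemma isPoissonMap : IsPoissonMap (omega n) (fun _ _ => 0) (Prod.fst : CT n → Fin n → ℝ) := by
  intro f g hf hg X Y hX hY z
  have hf' : DifferentiableAt ℝ f z.1 := (hf.differentiable (by simp)) _
  have hg' : DifferentiableAt ℝ g z.1 := (hg.differentiable (by simp)) _
  have key : ∀ (f : (Fin n → ℝ) → ℝ) (X : CT n → CT n), DifferentiableAt ℝ f z.1 →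
      IsHamiltonianField (omega n) (f ∘ Prod.fst) X → (X z).1 = 0 := by
    intro f X hf hX
    ext j
    have h1 := hX z (0, Pi.single j 1)
    rw [omega_apply, fderiv_comp z hf differentiableAt_fst, fderiv_fst] at h1
    simpa [Pi.single_apply] using h1
  rw [omega_apply]
  simp [key f X hf' hX, key g Y hg' hY]

lemma isLagrangianEmbedding : IsLagrangianEmbedding (omega n) unitCT where
  embedding := by
    refine Topology.IsClosedEmbedding.of_continuous_injective_isClosedMap
      (continuous_id.prodMk continuous_const) (fun x y h => congrArg Prod.fst h) ?_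
    intro K hK
    have : unitCT '' K = (K ×ˢ ({0} : Set (Fin n → ℝ)) : Set (CT n)) := by
      ext ⟨a, b⟩
      simp only [unitCT, mem_image, Prod.mk.injEq, mem_prod, mem_singleton_iff]
      constructor
      · rintro ⟨x, hx, rfl, rfl⟩
        exact ⟨hx, rfl⟩
      · rintro ⟨ha, rfl⟩
        exact ⟨a, ha, rfl, rfl⟩
    rw [this]
    exact hK.prod isClosed_singleton
  immersion x := by
    rw [(hasFDerivAt_unitCT x).fderiv]
    exact fun a b h => congrArg Prod.fst h
  isotropic x v w := by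
    unfold pull
    rw [(hasFDerivAt_unitCT x).fderiv, omega_apply]
    simp
  dim := by simp [two_mul]

/-- `T*ℝⁿ` with its canonical symplectic form is the canonical integration of `ℝⁿ` with the zero
bracket. -/
lemma isCanonicalIntegration :
    IsCanonicalIntegration (fun _ _ => 0) (omega n) Prod.fst Prod.fst unitCT invCT mulCT where
  groupoid := isSymplecticGroupoid
  submersion_t := isSubmersion_fst
  poisson_t := isPoissonMap
  lagrangian_u := isLagrangianEmbedding
  simplyConnected x := by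
    let e : ((Prod.fst : CT n → Fin n → ℝ) ⁻¹' {x}) ≃ₜ (Fin n → ℝ) :=
      { toFun := fun z => z.1.2
        invFun := fun p => ⟨(x, p), rfl⟩
        left_inv := by
          rintro ⟨⟨a, b⟩, hz⟩
          have : a = x := hz
          subst this
          rfl
        right_inv := fun p => rfl
        continuous_toFun := continuous_snd.comp continuous_subtype_val
        continuous_invFun := Continuous.subtype_mk (continuous_const.prodMk continuous_id) _ }
    have := e.contractibleSpace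
    infer_instance

lemma isPoissonBracket_zero :
    IsPoissonBracket (fun _ _ => 0 : ((Fin n → ℝ) → ℝ) → ((Fin n → ℝ) → ℝ) → (Fin n → ℝ) → ℝ) where
  smooth _ _ _ _ := contDiff_const
  skew _ _ _ _ := by simp
  add _ _ _ _ _ _ := by simp
  smul _ _ _ _ _ := by simp
  leibniz _ _ _ _ _ _ := by simp
  jacobi _ _ _ _ _ _ := by simp

/-! ## The homeomorphism -/

/-- The strictly increasing homeomorphism `x ↦ x³ + c x` of `ℝ`, for `c ≥ 0`. -/
lemma strictMono_cube {c : ℝ} (hc : 0 ≤ c) : StrictMono (fun x : ℝ => x ^ 3 + c * x) := by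
  have h1 : StrictMono (fun x : ℝ => x ^ 3) := Odd.strictMono_pow (by decide)
  have h2 : Monotone (fun x : ℝ => c * x) := fun x y h => mul_le_mul_of_nonneg_left h hc
  exact h1.add_monotone h2

lemma surjective_cube {c : ℝ} (hc : 0 ≤ c) : Function.Surjective (fun x : ℝ => x ^ 3 + c * x) := by
  have hcont : Continuous (fun x : ℝ => x ^ 3 + c * x) := by fun_prop
  intro y
  have h1 : (fun x : ℝ => x ^ 3 + c * x) (-(1 + |y|)) ≤ y := by
    have h0 : 0 ≤ |y| := abs_nonneg y
    have h3 : -y ≤ |y| := neg_le_abs y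
    have : 0 ≤ c * (1 + |y|) := by positivity
    have h4 : |y| ≤ (1 + |y|) ^ 3 := by nlinarith [sq_nonneg (|y|), mul_nonneg h0 (sq_nonneg (|y|))]
    show (-(1 + |y|)) ^ 3 + c * (-(1 + |y|)) ≤ y
    have h5 : (-(1 + |y|)) ^ 3 = -(1 + |y|) ^ 3 := by ring
    rw [h5]
    linarith
  have h2 : y ≤ (fun x : ℝ => x ^ 3 + c * x) (1 + |y|) := by
    have h0 : 0 ≤ |y| := abs_nonneg y
    have h3 : y ≤ |y| := le_abs_self y
    have : 0 ≤ c * (1 + |y|) := by positivity
    have h4 : |y| ≤ (1 + |y|) ^ 3 := by nlinarith [sq_nonneg (|y|), mul_nonneg h0 (sq_nonneg (|y|))]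
    show y ≤ (1 + |y|) ^ 3 + c * (1 + |y|)
    linarith
  have hle : -(1 + |y|) ≤ 1 + |y| := by linarith [abs_nonneg y]
  obtain ⟨x, -, hx⟩ := intermediate_value_Icc hle hcont.continuousOn ⟨h1, h2⟩
  exact ⟨x, hx⟩

/-- The homeomorphism `x ↦ x³ + c x` of `ℝ`, for `c ≥ 0`. -/
def cube (c : ℝ) (hc : 0 ≤ c) : ℝ ≃ₜ ℝ :=
  (StrictMono.orderIsoOfSurjective _ (strictMono_cube hc) (surjective_cube hc)).toHomeomorph

lemma cube_apply (c : ℝ) (hc : 0 ≤ c) (x : ℝ) : cube c hc x = x ^ 3 + c * x := rfl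

lemma contDiff_cube (c : ℝ) (hc : 0 ≤ c) : ContDiff ℝ ∞ (cube c hc) := by
  have : (cube c hc : ℝ → ℝ) = fun x => x ^ 3 + c * x := rfl
  rw [this]
  fun_prop

lemma contDiff_cube_symm (c : ℝ) (hc : 0 < c) : ContDiff ℝ ∞ (cube c hc.le).symm := by
  refine (cube c hc.le).contDiff_symm_deriv (f' := fun x => 3 * x ^ 2 + c) (fun x => by positivity)
    (fun x => ?_) (contDiff_cube c hc.le)
  have h := ((hasDerivAt_pow 3 x).add ((hasDerivAt_id x).const_mul c))
  have h2 : (cube c hc.le : ℝ → ℝ) = (fun x => x ^ 3) + fun x => c * id x := by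
    ext x
    simp [cube_apply]
  have h3 : (3 : ℝ) * x ^ 2 + c = ((3 : ℕ) : ℝ) * x ^ (3 - 1) + c * 1 := by norm_num
  rw [h2, h3]
  exact h

/-- The homeomorphism `(x₁, …, xₙ) ↦ (x₁³ + c x₁, x₂, …, xₙ)` of `ℝⁿ`. -/
def phi (n : ℕ) (c : ℝ) (hc : 0 ≤ c) : (Fin n → ℝ) ≃ₜ (Fin n → ℝ) :=
  Homeomorph.piCongrRight (fun i => if (i : ℕ) = 0 then cube c hc else Homeomorph.refl ℝ)

lemma phi_apply (c : ℝ) (hc : 0 ≤ c) (x : Fin n → ℝ) (i : Fin n) :
    phi n c hc x i = if (i : ℕ) = 0 then x i ^ 3 + c * x i else x i := by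
  unfold phi
  simp only [Homeomorph.piCongrRight_apply]
  split_ifs <;> rfl

lemma contDiff_phi (c : ℝ) (hc : 0 ≤ c) : ContDiff ℝ ∞ (phi n c hc) := by
  rw [contDiff_pi]
  intro i
  simp only [phi_apply]
  split_ifs
  · fun_prop
  · fun_prop

lemma contDiff_phi_symm (c : ℝ) (hc : 0 < c) : ContDiff ℝ ∞ (phi n c hc.le).symm := by
  rw [contDiff_pi]
  intro i
  have h : ∀ x, (phi n c hc.le).symm x i =
      (if (i : ℕ) = 0 then cube c hc.le else Homeomorph.refl ℝ).symm (x i) := by
    intro x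
    rfl
  simp only [h]
  split_ifs
  · exact (contDiff_cube_symm c hc).comp (contDiff_apply ℝ ℝ i)
  · exact contDiff_apply ℝ ℝ i

lemma isPoissonHomeo_phi : IsPoissonHomeo (fun _ _ => 0) (phi n 0 le_rfl) := by
  have hk : ∀ k : ℕ, (0 : ℝ) < 1 / ((k : ℝ) + 1) := fun k => by positivity
  refine ⟨fun k => (phi n (1 / ((k : ℝ) + 1)) (hk k).le).toEquiv, fun k => ?_, ?_⟩
  · exact ⟨contDiff_phi _ _, contDiff_phi_symm _ (hk k), fun f g _ _ => by ext; rfl⟩
  · intro K hK
    rw [Metric.tendstoUniformlyOn_iff]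
    intro ε hε
    obtain ⟨R, hR⟩ := hK.isBounded.exists_norm_le
    have h1 : Tendsto (fun k : ℕ => 1 / ((k : ℝ) + 1) * (|R| + 1)) atTop (𝓝 (0 * (|R| + 1))) :=
      tendsto_one_div_add_atTop_nhds_zero_nat.mul_const _
    rw [zero_mul] at h1
    filter_upwards [h1.eventually (gt_mem_nhds hε)] with k hk' x hx
    have hxR : ‖x‖ ≤ |R| + 1 := (hR x hx).trans (by linarith [le_abs_self R])
    refine lt_of_le_of_lt ?_ hk'
    rw [dist_pi_le_iff (by positivity)]
    intro i
    show dist (phi n 0 le_rfl x i) (phi n (1 / ((k : ℝ) + 1)) (hk k).le x i) ≤ _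
    rw [phi_apply, phi_apply]
    split_ifs with h0
    · rw [Real.dist_eq]
      have : x i ^ 3 + 0 * x i - (x i ^ 3 + 1 / ((k : ℝ) + 1) * x i) =
          -(1 / ((k : ℝ) + 1) * x i) := by ring
      rw [this, abs_neg, abs_mul, abs_of_pos (hk k)]
      refine mul_le_mul_of_nonneg_left ?_ (hk k).le
      exact (norm_le_pi_norm x i).trans hxR
    · rw [dist_self]
      positivity

/-! ## Symplectic homeomorphisms do not decrease volumes -/

/-- A linear map preserving the symplectic form has determinant `± 1`. -/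
lemma abs_det_eq_one (A : CT n →L[ℝ] CT n) (hA : ∀ v w, omega n 0 (A v) (A w) = omega n 0 v w) :
    |A.det| = 1 := by
  let B : LinearMap.BilinForm ℝ (CT n) :=
    LinearMap.mk₂ ℝ (fun v w => omega n 0 v w) (isTwoForm_omega.add_left 0)
      (isTwoForm_omega.smul_left 0) (isTwoForm_omega.add_right 0) (isTwoForm_omega.smul_right 0)
  have hB : ∀ v w, B v w = omega n 0 v w := fun v w => rfl
  let b := Module.finBasis ℝ (CT n)
  have hcomp : B.comp (A : CT n →ₗ[ℝ] CT n) (A : CT n →ₗ[ℝ] CT n) = B := by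
    ext v w <;> simp [LinearMap.BilinForm.comp_apply, hB, hA]
  have hM := LinearMap.BilinForm.toMatrix_comp b b B (A : CT n →ₗ[ℝ] CT n) (A : CT n →ₗ[ℝ] CT n)
  rw [hcomp] at hM
  have hdet := congrArg Matrix.det hM
  rw [Matrix.det_mul, Matrix.det_mul, Matrix.det_transpose] at hdet
  have hnd : (LinearMap.BilinForm.toMatrix b B).det ≠ 0 := by
    have hN : B.Nondegenerate := by
      constructor
      · intro v hv
        exact isSymplecticForm_omega.nondegenerate 0 v hv
      · intro v hv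
        refine isSymplecticForm_omega.nondegenerate 0 v fun w => ?_
        have := hv w
        rw [hB, omega_apply] at this
        rw [omega_apply, ← neg_eq_zero, ← this, ← Finset.sum_neg_distrib]
        exact Finset.sum_congr rfl fun i _ => by ring
    exact (LinearMap.BilinForm.nondegenerate_iff_det_ne_zero b).1 hN
  have hd : LinearMap.det (A : CT n →ₗ[ℝ] CT n) * LinearMap.det (A : CT n →ₗ[ℝ] CT n) = 1 := by
    rw [LinearMap.det_toMatrix b] at hdet
    have : (LinearMap.det (A : CT n →ₗ[ℝ] CT n) * LinearMap.det (A : CT n →ₗ[ℝ] CT n)) *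
        (LinearMap.BilinForm.toMatrix b B).det = 1 * (LinearMap.BilinForm.toMatrix b B).det := by
      linear_combination -hdet
    exact mul_right_cancel₀ hnd this
  have h2 : |A.det| * |A.det| = 1 := by
    rw [← abs_mul]
    show |LinearMap.det (A : CT n →ₗ[ℝ] CT n) * LinearMap.det (A : CT n →ₗ[ℝ] CT n)| = 1
    rw [hd, abs_one]
  nlinarith [abs_nonneg A.det]

instance : (volume : Measure (CT n)).IsAddHaarMeasure :=
  Measure.prod.instIsAddHaarMeasure _ _

lemma volume_image_diffeo {ψ : CT n ≃ CT n} (hψ : IsSymplecticDiffeo (omega n) ψ) {K : Set (CT n)}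
    (hK : MeasurableSet K) : volume (ψ '' K) = volume K := by
  rw [← lintegral_abs_det_fderiv_eq_addHaar_image volume hK
    (fun x _ => ((hψ.smooth.differentiable (by simp)) x).hasFDerivAt.hasFDerivWithinAt)
    ψ.injective.injOn]
  have : ∀ x, ENNReal.ofReal |(fderiv ℝ ψ x).det| = 1 := by
    intro x
    rw [abs_det_eq_one _ (fun v w => hψ.pullback x v w)]
    simp
  simp [this]

lemma volume_le_image {Φ : CT n ≃ₜ CT n} (hΦ : IsSymplecticHomeo (omega n) Φ) {K : Set (CT n)}
    (hK : IsCompact K) : volume K ≤ volume (Φ '' K) := by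
  obtain ⟨ψ, hψ, hlim⟩ := hΦ
  refine le_of_forall_gt fun r hr => ?_
  obtain ⟨U, hU, hUo, hUr⟩ := Set.exists_isOpen_lt_of_lt _ _ hr
  obtain ⟨δ, hδ, hδU⟩ := (hK.image Φ.continuous).exists_thickening_subset_open hUo hU
  obtain ⟨k, hk⟩ := ((Metric.tendstoUniformlyOn_iff.1 (hlim K hK)) δ hδ).exists
  have hsub : ψ k '' K ⊆ U := by
    rintro _ ⟨x, hx, rfl⟩
    apply hδU
    rw [Metric.mem_thickening_iff]
    refine ⟨Φ x, mem_image_of_mem _ hx, ?_⟩
    rw [dist_comm]
    exact hk x hx
  calc volume K = volume (ψ k '' K) := (volume_image_diffeo (hψ k) hK.measurableSet).symm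
    _ ≤ volume U := measure_mono hsub
    _ < r := hUr

/-- The box `[0, ε] × [0, 1]^{n-1} × [0, 1]ⁿ`. -/
def box (n : ℕ) (ε : ℝ) : Set (CT n) :=
  (univ.pi fun i : Fin n => Icc (0 : ℝ) (if (i : ℕ) = 0 then ε else 1)) ×ˢ
    (univ.pi fun _ : Fin n => Icc (0 : ℝ) 1)

lemma isCompact_box (ε : ℝ) : IsCompact (box n ε) :=
  (isCompact_univ_pi fun _ => isCompact_Icc).prod (isCompact_univ_pi fun _ => isCompact_Icc)

lemma prod_ite (hn : 0 < n) (a b : ENNReal) :
    ∏ i : Fin n, (if (i : ℕ) = 0 then a else b) = a * b ^ (n - 1) := by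
  obtain ⟨m, rfl⟩ : ∃ m, n = m + 1 := ⟨n - 1, by omega⟩
  rw [Fin.prod_univ_succ]
  simp

lemma volume_box (hn : 0 < n) {ε : ℝ} : volume (box n ε) = ENNReal.ofReal ε := by
  have h1 : volume (univ.pi fun i : Fin n => Icc (0 : ℝ) (if (i : ℕ) = 0 then ε else 1)) =
      ENNReal.ofReal ε := by
    rw [volume_pi_pi]
    have : ∀ i : Fin n, volume (Icc (0 : ℝ) (if (i : ℕ) = 0 then ε else 1)) =
        if (i : ℕ) = 0 then ENNReal.ofReal ε else 1 := by
      intro i
      split_ifs <;> simp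
    simp only [this]
    rw [prod_ite hn]
    simp
  have h2 : volume (univ.pi fun _ : Fin n => Icc (0 : ℝ) 1) = 1 := by
    rw [volume_pi_pi]
    simp
  rw [box, Measure.volume_eq_prod, Measure.prod_prod, h1, h2, mul_one]

/-- There is no symplectic homeomorphism of `T*ℝⁿ` over `(x₁, …, xₙ) ↦ (x₁³, x₂, …, xₙ)`. -/
lemma no_lift (hn : 0 < n) {Φ : CT n ≃ₜ CT n} (hΦ : IsSymplecticHomeo (omega n) Φ)
    (hlift : ∀ z, (Φ z).1 = phi n 0 le_rfl z.1) : False := by
  obtain ⟨C, hC⟩ := ((isCompact_box (n := n) 1).image Φ.continuous).isBounded.exists_norm_le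
  have hC0 : 0 ≤ C := by
    refine (norm_nonneg _).trans (hC (Φ 0) (mem_image_of_mem _ ?_))
    refine ⟨fun i _ => ?_, fun i _ => ?_⟩
    · simp only [Prod.fst_zero, Pi.zero_apply, mem_Icc, le_refl, true_and]
      split_ifs <;> norm_num
    · simp
  -- the image of the box is small
  have himg : ∀ ε : ℝ, 0 < ε → ε ≤ 1 → Φ '' box n ε ⊆
      (univ.pi fun i : Fin n => Icc (0 : ℝ) (if (i : ℕ) = 0 then ε ^ 3 else 1)) ×ˢ
        (univ.pi fun _ : Fin n => Icc (-C) C) := by
    intro ε h0 h1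
    rintro _ ⟨z, hz, rfl⟩
    refine ⟨fun i _ => ?_, fun i _ => ?_⟩
    · rw [hlift, phi_apply]
      have hzi := hz.1 i (mem_univ i)
      by_cases h : (i : ℕ) = 0
      · simp only [h, if_true, mem_Icc] at hzi ⊢
        refine ⟨?_, ?_⟩
        · have := pow_nonneg hzi.1 3
          linarith
        · have := pow_le_pow_left₀ hzi.1 hzi.2 3
          linarith
      · simp only [h, if_false] at hzi ⊢
        exact hzi
    · have hz1 : z ∈ box n 1 := by
        refine ⟨fun j hj => ?_, hz.2⟩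
        have := hz.1 j hj
        refine ⟨this.1, this.2.trans ?_⟩
        split_ifs
        · exact h1
        · exact le_rfl
      have h3 := hC (Φ z) (mem_image_of_mem _ hz1)
      have h4 : |(Φ z).2 i| ≤ C := (norm_le_pi_norm (Φ z).2 i).trans ((norm_snd_le (Φ z)).trans h3)
      exact abs_le.1 h4
  have hineq : ∀ ε : ℝ, 0 < ε → ε ≤ 1 → ε ≤ ε ^ 3 * (2 * C) ^ n := by
    intro ε h0 h1
    have h2 := (volume_le_image hΦ (isCompact_box (n := n) ε)).trans (measure_mono (himg ε h0 h1))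
    rw [volume_box hn, Measure.volume_eq_prod, Measure.prod_prod, volume_pi_pi, volume_pi_pi] at h2
    have h3 : ∀ i : Fin n, volume (Icc (0 : ℝ) (if (i : ℕ) = 0 then ε ^ 3 else 1)) =
        if (i : ℕ) = 0 then ENNReal.ofReal (ε ^ 3) else 1 := by
      intro i
      split_ifs <;> simp
    simp only [h3] at h2
    rw [prod_ite hn, one_pow, mul_one] at h2
    simp only [Real.volume_Icc, Finset.prod_const, Finset.card_univ, Fintype.card_fin] at h2
    have hC2 : 0 ≤ C - -C := by linarith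
    rw [← ENNReal.ofReal_pow hC2, ← ENNReal.ofReal_mul (by positivity),
      ENNReal.ofReal_le_ofReal_iff (mul_nonneg (by positivity) (pow_nonneg hC2 _))] at h2
    have h4 : C - -C = 2 * C := by ring
    rwa [h4] at h2
  -- let `ε` tend to zero
  set D : ℝ := (2 * C) ^ n with hD
  have hD0 : 0 ≤ D := by positivity
  have hε : (0 : ℝ) < 1 / (D + 1) := by positivity
  have hε1 : 1 / (D + 1) ≤ (1 : ℝ) := by
    rw [div_le_one (by positivity)]
    linarith
  have h := hineq _ hε hε1
  set e : ℝ := 1 / (D + 1) with he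
  have h5 : e * (D + 1) = 1 := by
    rw [he]
    field_simp
  have h6 : e ^ 3 * D = e * (e * (e * D)) := by ring
  have h7 : e * D = 1 - e := by linarith
  rw [h6, h7] at h
  nlinarith [mul_pos hε hε, mul_pos (mul_pos hε hε) hε]

/-- For every `n ≥ 1`: `ℝⁿ` with the zero bracket is an integrable Poisson manifold, with canonical
integration `T*ℝⁿ` with its canonical symplectic form `∑ dpᵢ ∧ dqᵢ` and `t` the bundle projection,
and there is a Poisson homeomorphism `φ` of `ℝⁿ` such that no symplectic homeomorphism `Φ` of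
`T*ℝⁿ` satisfies `t ∘ Φ = φ ∘ t`. -/
theorem result (n : ℕ) (hn : 1 ≤ n) :
    IsPoissonBracket (fun _ _ => 0 : ((Fin n → ℝ) → ℝ) → ((Fin n → ℝ) → ℝ) → (Fin n → ℝ) → ℝ) ∧
    IsCanonicalIntegration (fun _ _ => 0) (omega n) Prod.fst Prod.fst unitCT invCT mulCT ∧
    ∃ φ : (Fin n → ℝ) ≃ₜ (Fin n → ℝ), IsPoissonHomeo (fun _ _ => 0) φ ∧
      ¬ ∃ Φ : CT n ≃ₜ CT n, IsSymplecticHomeo (omega n) Φ ∧ ∀ z, (Φ z).1 = φ z.1 :=
  ⟨isPoissonBracket_zero, isCanonicalIntegration, phi n 0 le_rfl, isPoissonHomeo_phi,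
    fun ⟨_, h1, h2⟩ => no_lift hn h1 h2⟩

end Pool.Agent.Results.MP_bef951_gt.NoLift
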